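import Pool.Agent.Lib.Twist_H15.Quot

/-! # Coordinates with respect to bases of Frobenius monomials -/

set_option autoImplicit false

open Pool.Agent.H15Model Pool.Agent.H15Flag

namespace Pool.Agent.H15Twist

variable {k K : Type} [Field k] [Field K] [Algebra k K] {L : Type} {n h : ℕ}

/-- The Frobenius twist `x.2` of the column `x.1`. -/
def mon (p : ℕ) (v : L → Fin n → K) (x : L × ℕ) : Fin n → K := fun i => v x.1 i ^ (p ^ x.2)

/-- The degree of a monomial. -/
def dg (h : ℕ) (a : L → ℕ) (x : L × ℕ) : ZMod h := ((a x.1 + x.2 : ℕ) : ZMod h)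

lemma dg_succ (a : L → ℕ) (l : L) (r : ℕ) : dg h a (l, r + 1) = dg h a (l, r) + 1 := by
  unfold dg
  push_cast
  ring

/-- The matrix of the monomials of degree `j` of a chart. -/
def Dl (p : ℕ) (v : L → Fin n → K) (c : ZMod h → Fin n → L × ℕ) (j : ZMod h) :
    Matrix (Fin n) (Fin n) K := Matrix.of fun i t => mon p v (c j t) i

/-- The coordinates in degree `j`. -/
noncomputable def co (p : ℕ) (v : L → Fin n → K) (c : ZMod h → Fin n → L × ℕ) (j : ZMod h)
    (w : Fin n → K) : Fin n → K := (Dl p v c j)⁻¹.mulVec w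

/-- The chart data are the data of a closed set of monomials with `n` elements in each degree. -/
def Valid (a : L → ℕ) (c : ZMod h → Fin n → L × ℕ) (d : L → ℕ) : Prop :=
  (∀ j t, (c j t).2 < d (c j t).1 ∧ dg h a (c j t) = j) ∧
    ∀ l r, r < d l → ∃ t, c (dg h a (l, r)) t = (l, r)

variable (p : ℕ) (v : L → Fin n → K) (c : ZMod h → Fin n → L × ℕ)

lemma eq_sum_co {j : ZMod h} (hc : (Dl p v c j).det ≠ 0) (w : Fin n → K) (i : Fin n) :
    w i = ∑ t, co p v c j w t * mon p v (c j t) i := by
  have h1 : (Dl p v c j).mulVec (co p v c j w) = w := by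
    unfold co
    rw [Matrix.mulVec_mulVec, Matrix.mul_nonsing_inv _ (isUnit_iff_ne_zero.mpr hc),
      Matrix.one_mulVec]
  conv_lhs => rw [← h1]
  simp only [Matrix.mulVec, dotProduct, Dl, Matrix.of_apply]
  refine Finset.sum_congr rfl fun t _ => mul_comm _ _

lemma co_unique {j : ZMod h} (hc : (Dl p v c j).det ≠ 0) (w : Fin n → K) (y : Fin n → K)
    (hy : ∀ i, w i = ∑ t, y t * mon p v (c j t) i) : co p v c j w = y := by
  have h1 : w = (Dl p v c j).mulVec y := by
    funext i
    rw [hy i]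
    simp only [Matrix.mulVec, dotProduct, Dl, Matrix.of_apply]
    refine Finset.sum_congr rfl fun t _ => mul_comm _ _
  unfold co
  rw [h1, Matrix.mulVec_mulVec, Matrix.nonsing_inv_mul _ (isUnit_iff_ne_zero.mpr hc),
    Matrix.one_mulVec]

lemma co_self {j : ZMod h} (hc : (Dl p v c j).det ≠ 0) (t : Fin n) :
    co p v c j (mon p v (c j t)) = Pi.single t 1 := by
  apply co_unique p v c hc
  intro i
  rw [Finset.sum_eq_single t]
  · simp
  · intro s _ hs
    rw [Pi.single_eq_of_ne hs, zero_mul]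
  · intro h5; exact absurd (Finset.mem_univ _) h5

lemma mon_succ (l : L) (r : ℕ) (i : Fin n) : mon p v (l, r + 1) i = mon p v (l, r) i ^ p := by
  unfold mon
  change v l i ^ p ^ (r + 1) = (v l i ^ p ^ r) ^ p
  rw [← pow_mul, pow_succ]

/-- The chart ring. -/
noncomputable def ch (k : Type) {K : Type} [Field k] [Field K] [Algebra k K] {L : Type} {n h : ℕ}
    (p : ℕ) (v : L → Fin n → K) (a : L → ℕ) (c : ZMod h → Fin n → L × ℕ) (d : L → ℕ) :
    Subalgebra k K :=
  Algebra.adjoin k (Set.range fun z : Fin n × L =>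
    co p v c (dg h a (z.2, d z.2)) (mon p v (z.2, d z.2)) z.1)

variable (a : L → ℕ) (d : L → ℕ) [hp : Fact p.Prime] [CharP K p]

/-- Frobenius in coordinates. -/
lemma co_frob {E : Subalgebra k K} {j : ZMod h} (hc : (Dl p v c j).det ≠ 0)
    (hc' : (Dl p v c (j + 1)).det ≠ 0)
    (hE : ∀ t s, co p v c (j + 1) (fun i => mon p v (c j t) i ^ p) s ∈ E) (w : Fin n → K)
    (hw : ∀ t, co p v c j w t ∈ E) (s : Fin n) :
    co p v c (j + 1) (fun i => w i ^ p) s ∈ E := by
  have h1 : co p v c (j + 1) (fun i => w i ^ p) = fun s =>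
      ∑ t, co p v c j w t ^ p * co p v c (j + 1) (fun i => mon p v (c j t) i ^ p) s := by
    apply co_unique p v c hc'
    intro i
    rw [eq_sum_co p v c hc w i, sum_pow_char]
    have h2 : ∀ t, (co p v c j w t * mon p v (c j t) i) ^ p =
        ∑ s, co p v c j w t ^ p * co p v c (j + 1) (fun i => mon p v (c j t) i ^ p) s *
          mon p v (c (j + 1) s) i := by
      intro t
      rw [mul_pow, eq_sum_co p v c hc' (fun i => mon p v (c j t) i ^ p) i, Finset.mul_sum]
      refine Finset.sum_congr rfl fun s _ => by ring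
    simp_rw [h2]
    rw [Finset.sum_comm]
    refine Finset.sum_congr rfl fun s _ => ?_
    rw [Finset.sum_mul]
  rw [h1]
  exact sum_mem fun t _ => mul_mem (pow_mem (hw t) _) (hE t s)

/-- All the monomials have coordinates in the chart ring. -/
lemma co_mon_mem (hv : Valid a c d) (hc : ∀ j, (Dl p v c j).det ≠ 0) (l : L) (r : ℕ)
    (s : Fin n) : co p v c (dg h a (l, r)) (mon p v (l, r)) s ∈ ch k p v a c d := by
  have hle : ∀ l r, r ≤ d l → ∀ s, co p v c (dg h a (l, r)) (mon p v (l, r)) s ∈
      ch k p v a c d := by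
    intro l r hr s
    rcases hr.lt_or_eq with h1 | h1
    · obtain ⟨t, ht⟩ := hv.2 l r h1
      have h2 := co_self p v c (hc (dg h a (l, r))) t
      rw [ht] at h2
      rw [h2, Pi.single_apply]
      split_ifs
      · exact one_mem _
      · exact zero_mem _
    · rw [h1]
      exact Algebra.subset_adjoin ⟨(s, l), rfl⟩
  induction r generalizing s with
  | zero => exact hle l 0 (Nat.zero_le _) s
  | succ r ih =>
    by_cases hr : r + 1 ≤ d l
    · exact hle l _ hr s
    · rw [dg_succ]
      have h1 : mon p v (l, r + 1) = fun i => mon p v (l, r) i ^ p := by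
        funext i; exact mon_succ p v l r i
      rw [h1]
      apply co_frob p v c (hc _) (hc _) _ _ ih
      intro t s
      have h2 : (fun i => mon p v (c (dg h a (l, r)) t) i ^ p) =
          mon p v ((c (dg h a (l, r)) t).1, (c (dg h a (l, r)) t).2 + 1) := by
        funext i
        rw [mon_succ]
      have h3 : dg h a (l, r) + 1 =
          dg h a ((c (dg h a (l, r)) t).1, (c (dg h a (l, r)) t).2 + 1) := by
        rw [dg_succ]
        congr 1
        exact (hv.1 (dg h a (l, r)) t).2.symm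
      rw [h2]
      conv in co p v c _ _ s => rw [h3]
      exact hle _ _ (hv.1 _ t).1 s

/-- The gluing condition. -/
lemma isAway_ch [NeZero h] (hv : Valid a c d) (hc : ∀ j, (Dl p v c j).det ≠ 0)
    (c' : ZMod h → Fin n → L × ℕ) (d' : L → ℕ) (hv' : Valid a c' d')
    (hc' : ∀ j, (Dl p v c' j).det ≠ 0) :
    IsAway (ch k p v a c d) (ch k p v a c d ⊔ ch k p v a c' d') := by
  -- the transition matrices
  have hT : ∀ (c c' : ZMod h → Fin n → L × ℕ) (d d' : L → ℕ), Valid a c d → Valid a c' d' →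
      (∀ j, (Dl p v c j).det ≠ 0) → ∀ j s t, ((Dl p v c j)⁻¹ * Dl p v c' j) s t ∈
        ch k p v a c d := by
    intro c c' d d' hv hv' hc j s t
    have h1 : ((Dl p v c j)⁻¹ * Dl p v c' j) s t = co p v c j (mon p v (c' j t)) s := rfl
    rw [h1]
    have h2 := (hv'.1 j t).2
    have h3 := co_mon_mem (k := k) p v c a d hv hc (c' j t).1 (c' j t).2 s
    rw [show ((c' j t).1, (c' j t).2) = c' j t from rfl, h2] at h3
    exact h3
  have hdet : ∀ (c c' : ZMod h → Fin n → L × ℕ) (d d' : L → ℕ), Valid a c d → Valid a c' d' →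
      (∀ j, (Dl p v c j).det ≠ 0) → ∀ j, ((Dl p v c j)⁻¹ * Dl p v c' j).det ∈
        ch k p v a c d := by
    intro c c' d d' hv hv' hc j
    rw [Matrix.det_apply]
    refine sum_mem fun σ _ => ?_
    exact zsmul_mem (prod_mem fun t _ => hT c c' d d' hv hv' hc j _ _) _
  have hu : ∀ j, ((Dl p v c j)⁻¹ * Dl p v c' j).det ≠ 0 := by
    intro j
    rw [Matrix.det_mul, Matrix.det_nonsing_inv, Ring.inverse_eq_inv']
    exact mul_ne_zero (inv_ne_zero (hc j)) (hc' j)
  obtain ⟨u, hudef⟩ : ∃ u, u = ∏ j : ZMod h, ((Dl p v c j)⁻¹ * Dl p v c' j).det := ⟨_, rfl⟩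
  have hinv : u⁻¹ = ∏ j : ZMod h, ((Dl p v c' j)⁻¹ * Dl p v c j).det := by
    rw [hudef, ← Finset.prod_inv_distrib]
    refine Finset.prod_congr rfl fun j _ => ?_
    rw [Matrix.det_mul, Matrix.det_mul, Matrix.det_nonsing_inv, Matrix.det_nonsing_inv,
      Ring.inverse_eq_inv', mul_inv, inv_inv, mul_comm]
  refine ⟨u, ?_⟩
  apply awayOf_of_generated le_sup_left (S := Set.range fun z : Fin n × L =>
    co p v c' (dg h a (z.2, d' z.2)) (mon p v (z.2, d' z.2)) z.1)
  · rw [hudef]
    exact prod_mem fun j _ => hdet c c' d d' hv hv' hc j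
  · rw [hudef, Finset.prod_ne_zero_iff]
    exact fun j _ => hu j
  · rw [hinv]
    exact (le_sup_right : ch k p v a c' d' ≤ _)
      (prod_mem fun j _ => hdet c' c d' d hv' hv hc' j)
  · rintro _ ⟨⟨s, l⟩, rfl⟩
    refine ⟨1, ?_⟩
    rw [pow_one]
    obtain ⟨j, hj⟩ : ∃ j, j = dg h a (l, d' l) := ⟨_, rfl⟩
    obtain ⟨w, hw⟩ : ∃ w, w = mon p v (l, d' l) := ⟨_, rfl⟩
    have hwm : ∀ t, co p v c j w t ∈ ch k p v a c d := by
      intro t; rw [hj, hw]; exact co_mon_mem (k := k) p v c a d hv hc l (d' l) t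
    change co p v c' (dg h a (l, d' l)) (mon p v (l, d' l)) s * u ∈ _
    rw [← hj, ← hw]
    have h1 : co p v c' j w s * ((Dl p v c j)⁻¹ * Dl p v c' j).det =
        ((Dl p v c j)⁻¹ * Dl p v c' j).adjugate.mulVec (co p v c j w) s := by
      obtain ⟨T, hTd⟩ : ∃ T, T = (Dl p v c j)⁻¹ * Dl p v c' j := ⟨_, rfl⟩
      rw [← hTd]
      have h2 : T.mulVec (co p v c' j w) = co p v c j w := by
        rw [hTd]
        unfold co
        rw [Matrix.mulVec_mulVec, Matrix.mul_assoc,
          Matrix.mul_nonsing_inv _ (isUnit_iff_ne_zero.mpr (hc' j)), Matrix.mul_one]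
      rw [← h2, Matrix.mulVec_mulVec, Matrix.adjugate_mul, Matrix.smul_mulVec, Matrix.one_mulVec,
        Pi.smul_apply, smul_eq_mul, mul_comm]
    have h3 : co p v c' j w s * u = (co p v c' j w s * ((Dl p v c j)⁻¹ * Dl p v c' j).det) *
        ∏ j' ∈ Finset.univ.erase j, ((Dl p v c j')⁻¹ * Dl p v c' j').det := by
      rw [hudef, ← Finset.mul_prod_erase Finset.univ _ (Finset.mem_univ j), mul_assoc]
    rw [h3, h1]
    refine mul_mem ?_ (prod_mem fun j' _ => hdet c c' d d' hv hv' hc j')
    simp only [Matrix.mulVec, dotProduct]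
    refine sum_mem fun t _ => mul_mem ?_ (hwm t)
    rw [Matrix.adjugate_apply, Matrix.det_apply]
    refine sum_mem fun σ _ => zsmul_mem (prod_mem fun x _ => ?_) _
    rw [Matrix.updateRow_apply]
    split_ifs
    · rw [Pi.single_apply]
      split_ifs
      · exact one_mem _
      · exact zero_mem _
    · exact hT c c' d d' hv hv' hc j _ _
  · exact sup_le le_sup_left (le_sup_of_le_right le_rfl)

/-- The entries are integral over the chart ring. -/
lemma mem_of_ch [NeZero h] (hv : Valid a c d) (hc : ∀ j, (Dl p v c j).det ≠ 0)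
    (V : ValuationSubring K) (hV : ∀ z ∈ ch k p v a c d, z ∈ V) (l : L) (i : Fin n) :
    v l i ∈ V := by
  have hfr : ∀ j t s, co p v c (j + 1) (fun i => mon p v (c j t) i ^ p) s ∈ V := by
    intro j t s
    apply hV
    have h2 : (fun i => mon p v (c j t) i ^ p) = mon p v ((c j t).1, (c j t).2 + 1) := by
      funext i
      rw [mon_succ]
    have h3 : j + 1 = dg h a ((c j t).1, (c j t).2 + 1) := by
      rw [dg_succ]
      congr 1
      exact (hv.1 j t).2.symm
    rw [h2]
    conv in co p v c _ _ s => rw [h3]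
    exact co_mon_mem (k := k) p v c a d hv hc _ _ s
  have hbas : ∀ j t, mon p v (c j t) i ∈ V := by
    rcases isEmpty_or_nonempty (Fin n) with h0 | h0
    · intro j t; exact h0.elim t
    obtain ⟨⟨j, t⟩, hmax⟩ := Finite.exists_max
      (fun x : ZMod h × Fin n => V.valuation (mon p v (c x.1 x.2) i))
    have hq : ∀ j' t', mon p v (c j' t') i / mon p v (c j t) i ∈ V := by
      intro j' t'
      rw [← ValuationSubring.valuation_le_one_iff, map_div₀]
      exact div_le_one_of_le₀ (hmax (j', t')) zero_le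
    have hy : mon p v (c j t) i ∈ V := by
      by_cases hy0 : mon p v (c j t) i = 0
      · rw [hy0]; exact zero_mem V
      have hp2 : 2 ≤ p := hp.out.two_le
      apply mem_of_pow_mem V (e := p - 1) (by omega)
      have h4 : mon p v (c j t) i ^ (p - 1) = mon p v (c j t) i ^ p / mon p v (c j t) i := by
        rw [eq_div_iff hy0, ← pow_succ]
        congr 1
        omega
      have h5 : mon p v (c j t) i ^ p / mon p v (c j t) i =
          ∑ s, co p v c (j + 1) (fun i => mon p v (c j t) i ^ p) s *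
            (mon p v (c (j + 1) s) i / mon p v (c j t) i) := by
        rw [eq_sum_co p v c (hc (j + 1)) (fun i => mon p v (c j t) i ^ p) i, Finset.sum_div]
        refine Finset.sum_congr rfl fun s _ => ?_
        rw [mul_div_assoc]
      rw [h4, h5]
      exact sum_mem fun s _ => mul_mem (hfr j t s) (hq _ _)
    intro j' t'
    have h6 := mul_mem (hq j' t') hy
    by_cases hy0 : mon p v (c j t) i = 0
    · have h7 := hmax (j', t')
      simp only [hy0, map_zero] at h7
      have h8 : mon p v (c j' t') i = 0 := by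
        have := le_antisymm h7 zero_le
        rwa [map_eq_zero] at this
      rw [h8]; exact zero_mem V
    · rwa [div_mul_cancel₀ _ hy0] at h6
  have h9 : v l i = mon p v (l, 0) i := by
    unfold mon
    rw [pow_zero, pow_one]
  rw [h9, eq_sum_co p v c (hc (dg h a (l, 0))) (mon p v (l, 0)) i]
  exact sum_mem fun t _ => mul_mem (hV _ (co_mon_mem (k := k) p v c a d hv hc l 0 t)) (hbas _ _)

end Pool.Agent.H15Twist
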