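import Pool.Agent.Lib.Flag_H15.Gal

/-! # The Galois lemma for an additive polynomial -/

set_option autoImplicit false

open Polynomial Pool.Agent.H15Flag

namespace Pool.Agent.H15Twist

variable {F k : Type} [Field F] [Fintype F] [Field k] [Algebra F k] {n : ℕ}
variable (p h : ℕ) [hp : Fact p.Prime]
variable {K : Type} [Field K] [CharP K p] [Algebra k K] [Algebra F K] [IsScalarTower F k K]

/-- The elements fixed by all the automorphisms over a subfield that contains the coefficients of
the additive polynomial whose roots are the combinations of the `v i`. -/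
lemma mem_of_fixed_core (hq : Fintype.card F = p ^ h) (hh : 1 ≤ h) (v : Fin n → K)
    (hv : Function.Injective (ev (F := F) v))
    (E0 : Subfield K) (hk : ∀ a : k, algebraMap k K a ∈ E0)
    (hgen : ∀ S : Subalgebra k K, (∀ z ∈ S, z⁻¹ ∈ S) → (∀ z ∈ E0, z ∈ S) → (∀ i, v i ∈ S) → S = ⊤)
    (β : Fin n → E0)
    (hβ : ∀ i, v i ^ ((p ^ h) ^ n) = ∑ r : Fin n, (β r : K) * v i ^ ((p ^ h) ^ (r : ℕ)))
    (w : K)
    (hw : ∀ (σ : K ≃ₐ[E0] K) (u : GL (Fin n) F),
      (∀ i : Fin n, σ (v i) = ∑ j : Fin n, algebraMap F _ (u.1 i j) * v j) → σ w = w) :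
    w ∈ E0 := by
  classical
  have hq2 : 2 ≤ p ^ h := by
    calc 2 ≤ p := hp.out.two_le
      _ = p ^ 1 := (pow_one p).symm
      _ ≤ p ^ h := Nat.pow_le_pow_right hp.out.pos hh
  have hprod := addPoly_prod p h hq E0 hq2 β v hv hβ
  have hmonic := addPoly_monic p h E0 hq2 β
  have hP0 : addPoly E0 (p ^ h) β ≠ 0 := hmonic.ne_zero
  have hevsingle : ∀ i, ev v (Pi.single i (1 : F)) = v i := by
    intro i
    unfold ev
    rw [Finset.sum_eq_single i]
    · simp
    · intro j _ hj
      simp [Pi.single_eq_of_ne hj]
    · intro h5; exact absurd (Finset.mem_univ i) h5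
  -- the splitting field
  have hsplit : Polynomial.IsSplittingField E0 K (addPoly E0 (p ^ h) β) := by
    refine ⟨?_, ?_⟩
    · rw [hprod]
      exact Splits.prod fun _ _ => Splits.X_sub_C _
    · have halg : ∀ x ∈ ((addPoly E0 (p ^ h) β).rootSet K), IsAlgebraic E0 x :=
        fun x hx => isAlgebraic_of_mem_rootSet hx
      rw [← IntermediateField.adjoin_toSubalgebra_of_isAlgebraic halg]
      set I := IntermediateField.adjoin E0 ((addPoly E0 (p ^ h) β).rootSet K) with hI
      have hvI : ∀ i, v i ∈ I := by
        intro i
        apply IntermediateField.subset_adjoin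
        rw [mem_rootSet_of_ne hP0, aeval_def, ← eval_map, hprod, eval_prod]
        refine Finset.prod_eq_zero (Finset.mem_univ (Pi.single i (1 : F))) ?_
        rw [hevsingle, eval_sub, eval_X, eval_C, sub_self]
      let S : Subalgebra k K :=
        { carrier := I
          mul_mem' := fun {a b} ha hb => mul_mem ha hb
          add_mem' := fun {a b} ha hb => add_mem ha hb
          algebraMap_mem' := fun r => I.algebraMap_mem ⟨_, hk r⟩ }
      have hS : S = ⊤ := by
        apply hgen
        · intro z hz
          exact I.inv_mem hz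
        · intro z hz
          exact I.algebraMap_mem ⟨z, hz⟩
        · exact hvI
      rw [eq_top_iff]
      intro z _
      have : z ∈ S := by rw [hS]; trivial
      exact this
  have hsep : (addPoly E0 (p ^ h) β).Separable := by
    rw [← Polynomial.separable_map (algebraMap E0 K), hprod, separable_prod_X_sub_C_iff]
    exact hv
  have hgal : IsGalois E0 K := IsGalois.of_separable_splitting_field hsep
  have hfd : FiniteDimensional E0 K :=
    Polynomial.IsSplittingField.finiteDimensional _ (addPoly E0 (p ^ h) β)
  -- the action of the Galois group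
  have hroot : ∀ (σ : K ≃ₐ[E0] K) (i : Fin n), ∃ α : Fin n → F, σ (v i) = ev v α := by
    intro σ i
    have h7 : aeval (v i) (addPoly E0 (p ^ h) β) = 0 := by
      rw [aeval_def, ← eval_map, hprod, eval_prod]
      refine Finset.prod_eq_zero (Finset.mem_univ (Pi.single i (1 : F))) ?_
      rw [hevsingle, eval_sub, eval_X, eval_C, sub_self]
    have h8 : aeval (σ (v i)) (addPoly E0 (p ^ h) β) = 0 := by
      have := congrArg σ h7
      rw [map_zero] at this
      rw [← this]
      exact aeval_algHom_apply (σ : K →ₐ[E0] K) (v i) _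
    rw [aeval_def, ← eval_map, hprod, eval_prod, Finset.prod_eq_zero_iff] at h8
    obtain ⟨α, -, hα⟩ := h8
    rw [eval_sub, eval_X, eval_C, sub_eq_zero] at hα
    exact ⟨α, hα⟩
  choose u hu using hroot
  have hFfix : ∀ (σ : K ≃ₐ[E0] K) (a : F), σ (algebraMap F K a) = algebraMap F K a := by
    intro σ a
    rw [IsScalarTower.algebraMap_apply F k K]
    exact σ.commutes ⟨_, hk (algebraMap F k a)⟩
  have hinv : ∀ σ : K ≃ₐ[E0] K, (Matrix.of (u σ)) * (Matrix.of (u σ.symm)) = 1 := by
    intro σ
    have h9 : ∀ i, (fun r => ∑ j, u σ i j * u σ.symm j r) = Pi.single i (1 : F) := by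
      intro i
      apply hv
      rw [hevsingle]
      have h10 : σ.symm (σ (v i)) = v i := σ.symm_apply_apply _
      rw [← h10, hu σ i]
      have h11 : σ.symm (ev v (u σ i)) = ∑ j, algebraMap F _ (u σ i j) * ev v (u σ.symm j) := by
        unfold ev
        rw [map_sum]
        refine Finset.sum_congr rfl fun j _ => ?_
        rw [map_mul]
        have h12 := hu σ.symm j
        unfold ev at h12
        rw [h12, hFfix]
      rw [h11]
      unfold ev
      simp_rw [Finset.mul_sum]
      rw [Finset.sum_comm]
      refine Finset.sum_congr rfl fun r _ => ?_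
      rw [map_sum, Finset.sum_mul]
      refine Finset.sum_congr rfl fun j _ => ?_
      rw [map_mul, mul_assoc]
    ext i r
    rw [Matrix.mul_apply]
    have h13 := congrFun (h9 i) r
    simp only [Matrix.of_apply]
    rw [h13, Matrix.one_apply, Pi.single_apply]
    simp only [eq_comm]
  have hmem : w ∈ Set.range (algebraMap E0 K) := by
    rw [IsGalois.mem_range_algebraMap_iff_fixed]
    intro σ
    let g : GL (Fin n) F := ⟨Matrix.of (u σ), Matrix.of (u σ.symm), hinv σ, by
      have := hinv σ.symm
      simpa using this⟩
    exact hw σ g (fun i => hu σ i)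
  obtain ⟨w', hw'⟩ := hmem
  rw [← hw']
  exact w'.2

/-- `n` elements of an `n`-dimensional space of vectors over a subfield that are independent over
the large field: they form a basis. -/
lemma exists_coeff (E0 : Subfield K) (b b' : Fin n → Fin n → K) (hb : LinearIndependent K b)
    (hb' : LinearIndependent K b') (hle : ∀ t, b' t ∈ Submodule.span E0 (Set.range b))
    (x : Fin n → K) (hx : x ∈ Submodule.span E0 (Set.range b)) :
    ∃ c : Fin n → E0, ∀ i, x i = ∑ r : Fin n, (c r : K) * b' r i := by
  have hb0 : LinearIndependent E0 b := hb.restrict_scalars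
    (by intro x y hxy; simpa [Subfield.smul_def] using hxy)
  have hm0 : LinearIndependent E0 b' :=
    hb'.restrict_scalars (by intro x y hxy; simpa [Subfield.smul_def] using hxy)
  have hle : Submodule.span E0 (Set.range b') ≤ Submodule.span E0 (Set.range b) := by
    rw [Submodule.span_le]
    rintro _ ⟨r, rfl⟩
    exact hle r
  have heq : Submodule.span E0 (Set.range b') = Submodule.span E0 (Set.range b) := by
    have : FiniteDimensional E0 (Submodule.span E0 (Set.range b)) :=
      FiniteDimensional.span_of_finite E0 (Set.finite_range b)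
    apply Submodule.eq_of_le_of_finrank_eq hle
    rw [finrank_span_eq_card hm0, finrank_span_eq_card hb0]
  rw [← heq, Submodule.mem_span_range_iff_exists_fun] at hx
  obtain ⟨c, hc⟩ := hx
  refine ⟨c, fun i => ?_⟩
  rw [← hc]
  simp only [Finset.sum_apply, Pi.smul_apply]
  rfl

end Pool.Agent.H15Twist
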