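import Pool.Agent.Lib.Twist_H15.Defs
import Pool.Agent.Lib.Twist_H15.Coord
import Pool.Agent.Lib.Twist_H15.GalT

/-! # The twisted action -/

set_option autoImplicit false

open Pool.Agent.H15Flag

namespace Pool.Agent.H15Twist

section FrobMod

variable {F : Type} [Field F] [Fintype F] (p h : ℕ)

lemma frob_mod (hq : Fintype.card F = p ^ h) (x : F) (m : ℕ) : x ^ (p ^ m) = x ^ (p ^ (m % h)) := by
  conv_lhs => rw [← Nat.div_add_mod m h, pow_add, pow_mul, pow_mul p h, ← hq,
    FiniteField.pow_card_pow]

lemma frob_congr (hq : Fintype.card F = p ^ h) (x : F) {m m' : ℕ}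
    (hm : (m : ZMod h) = (m' : ZMod h)) : x ^ (p ^ m) = x ^ (p ^ m') := by
  rw [frob_mod p h hq x m, frob_mod p h hq x m']
  rw [ZMod.natCast_eq_natCast_iff'] at hm
  rw [hm]

end FrobMod

section Act

variable {k : Type} [Field k] {F : Type} [Field F] [Algebra F k] {n : ℕ} {L : Type}
variable (p : ℕ) (a : L → ℕ)

lemma twAct_X (u : Matrix (Fin n) (Fin n) F) (i : Fin n) (l : L) :
    twAct k p a u (MvPolynomial.X (i, l)) =
      ∑ j, MvPolynomial.C (algebraMap F k (u i j ^ (p ^ a l))) * MvPolynomial.X (j, l) := by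
  simp [twAct]

lemma twAct_comp_apply [Fact p.Prime] [CharP F p] (u v : Matrix (Fin n) (Fin n) F)
    (g : MvPolynomial (Fin n × L) k) :
    twAct k p a u (twAct k p a v g) = twAct k p a (v * u) g := by
  have : (twAct k p a u).comp (twAct k p a v) = twAct k p a (v * u) := by
    apply MvPolynomial.algHom_ext
    rintro ⟨i, l⟩
    rw [AlgHom.comp_apply, twAct_X, twAct_X, map_sum]
    have h1 : ∀ j, twAct k p a u (MvPolynomial.C (algebraMap F k (v i j ^ (p ^ a l))) *
        MvPolynomial.X (j, l)) =
        ∑ r, MvPolynomial.C (algebraMap F k ((v i j * u j r) ^ (p ^ a l))) *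
          MvPolynomial.X (r, l) := by
      intro j
      have h2 : twAct k p a u (MvPolynomial.C (algebraMap F k (v i j ^ (p ^ a l)))) =
        MvPolynomial.C (algebraMap F k (v i j ^ (p ^ a l))) := (twAct k p a u).commutes _
      rw [map_mul, twAct_X, h2, Finset.mul_sum]
      refine Finset.sum_congr rfl fun r _ => ?_
      rw [mul_pow, map_mul, MvPolynomial.C_mul, mul_assoc]
    simp_rw [h1]
    rw [Finset.sum_comm]
    refine Finset.sum_congr rfl fun r _ => ?_
    rw [← Finset.sum_mul, Matrix.mul_apply, sum_pow_char_pow, map_sum, map_sum]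
  rw [← this, AlgHom.comp_apply]

lemma twAct_one [Fact p.Prime] (g : MvPolynomial (Fin n × L) k) :
    twAct k p a (1 : Matrix (Fin n) (Fin n) F) g = g := by
  have : twAct k p a (1 : Matrix (Fin n) (Fin n) F) = AlgHom.id k _ := by
    apply MvPolynomial.algHom_ext
    rintro ⟨i, l⟩
    have hp : (p ^ a l) ≠ 0 := (pow_pos (Fact.out : p.Prime).pos _).ne'
    rw [twAct_X, AlgHom.id_apply, Finset.sum_eq_single i]
    · simp
    · intro j _ hj
      rw [Matrix.one_apply_ne hj.symm, zero_pow hp]
      simp
    · intro h; exact absurd (Finset.mem_univ i) h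
  rw [this, AlgHom.id_apply]

lemma twAct_injective [Fact p.Prime] [CharP F p] (u : GL (Fin n) F) :
    Function.Injective (twAct k p a (u : Matrix (Fin n) (Fin n) F)) := by
  apply Function.LeftInverse.injective
    (g := twAct k p a ((u⁻¹ : GL (Fin n) F) : Matrix (Fin n) (Fin n) F))
  intro g
  rw [twAct_comp_apply, Units.mul_inv, twAct_one]

variable [Fact p.Prime] [CharP F p]

omit [Fact p.Prime] [CharP F p] in
/-- The composition with the inclusion in the fraction field. -/
noncomputable def sigTAux (u : GL (Fin n) F) :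
    MvPolynomial (Fin n × L) k →ₐ[k] FractionRing (MvPolynomial (Fin n × L) k) :=
  (IsScalarTower.toAlgHom k (MvPolynomial (Fin n × L) k)
      (FractionRing (MvPolynomial (Fin n × L) k))).comp
        (twAct k p a (u : Matrix (Fin n) (Fin n) F))

omit [Fact p.Prime] [CharP F p] in
lemma sigTAux_apply (u : GL (Fin n) F) (g : MvPolynomial (Fin n × L) k) :
    sigTAux p a u g = algebraMap _ _ (twAct k p a (u : Matrix (Fin n) (Fin n) F) g) := rfl

lemma sigTAux_injective (u : GL (Fin n) F) :
    Function.Injective (sigTAux (k := k) p a u) := by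
  intro x y hab
  rw [sigTAux_apply, sigTAux_apply] at hab
  exact twAct_injective p a u (IsFractionRing.injective (MvPolynomial (Fin n × L) k)
      (FractionRing (MvPolynomial (Fin n × L) k)) hab)

/-- The action on the fraction field. -/
noncomputable def sigT (u : GL (Fin n) F) :
    FractionRing (MvPolynomial (Fin n × L) k) →ₐ[k] FractionRing (MvPolynomial (Fin n × L) k) :=
  IsFractionRing.liftAlgHom (A := MvPolynomial (Fin n × L) k) (sigTAux_injective p a u)

lemma sigT_algebraMap (u : GL (Fin n) F) (g : MvPolynomial (Fin n × L) k) :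
    sigT p a u (algebraMap _ (FractionRing (MvPolynomial (Fin n × L) k)) g) =
      algebraMap _ _ (twAct k p a (u : Matrix (Fin n) (Fin n) F) g) := by
  unfold sigT
  rw [IsFractionRing.liftAlgHom_apply, IsFractionRing.lift_algebraMap]
  exact sigTAux_apply p a u g

/-- The generic columns. -/
noncomputable def vg (k : Type) [Field k] (L : Type) (n : ℕ) :
    L → Fin n → FractionRing (MvPolynomial (Fin n × L) k) := fun l i =>
  algebraMap (MvPolynomial (Fin n × L) k) _ (MvPolynomial.X (i, l))

omit [Fact p.Prime] [CharP F p] in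
lemma vg_eq (l : L) (i : Fin n) : vg k L n l i = Mg k L n i l := by
  rw [Mg, dif_pos i.2]
  rfl

lemma sigT_vg (u : GL (Fin n) F) (l : L) (i : Fin n) :
    sigT p a u (vg k L n l i) = ∑ j : Fin n, algebraMap F _ (u.1 i j ^ (p ^ a l)) *
      vg k L n l j := by
  unfold vg
  rw [sigT_algebraMap, twAct_X, map_sum]
  refine Finset.sum_congr rfl fun j _ => ?_
  rw [map_mul]
  rfl

end Act

section Fixed

variable {k : Type} [Field k] {F : Type} [Field F] [Fintype F] [Algebra F k] {n h : ℕ} {L : Type}
variable (p : ℕ) (a : L → ℕ) [hp : Fact p.Prime] [CharP F p]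
variable (hq : Fintype.card F = p ^ h)

/-- The twist of a matrix in degree `j`. -/
noncomputable def tw (K : Type) [Field K] [Algebra F K] (j : ℕ) (u : GL (Fin n) F) :
    Matrix (Fin n) (Fin n) K := Matrix.of fun i t => algebraMap F K (u.1 i t ^ (p ^ j))

omit [Fintype F] in
lemma tw_injective {K : Type} [Field K] [Algebra F K] (j : ℕ) (u : GL (Fin n) F)
    {w w' : Fin n → K} (hw : (tw p K j u).mulVec w = (tw p K j u).mulVec w') : w = w' := by
  have h1 : tw p K j u⁻¹ * tw p K j u = 1 := by
    have h2 : ((u⁻¹ : GL (Fin n) F) : Matrix (Fin n) (Fin n) F) * (u : Matrix (Fin n) (Fin n) F) =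
      1 := Units.inv_mul u
    ext i t
    have h3 := congrFun (congrFun h2 i) t
    rw [Matrix.mul_apply] at h3 ⊢
    simp only [tw, Matrix.of_apply]
    have h4 := congrArg (fun x : F => algebraMap F K (x ^ (p ^ j))) h3
    simp only [sum_pow_char_pow, map_sum, mul_pow, map_mul] at h4
    refine h4.trans ?_
    rw [Matrix.one_apply, Matrix.one_apply]
    split_ifs
    · simp
    · rw [zero_pow (pow_pos hp.out.pos _).ne', map_zero]
  rw [← Matrix.one_mulVec w, ← Matrix.one_mulVec w', ← h1, ← Matrix.mulVec_mulVec,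
    ← Matrix.mulVec_mulVec, hw]

include hq in
lemma sigT_mon [CharP (FractionRing (MvPolynomial (Fin n × L) k)) p] (u : GL (Fin n) F)
    (x : L × ℕ) (j : ℕ) (hj : (j : ZMod h) = dg h a x) (i : Fin n) :
    sigT p a u (mon p (vg k L n) x i) = (tw p _ j u).mulVec (mon p (vg k L n) x) i := by
  unfold mon
  rw [map_pow, sigT_vg, sum_pow_char_pow]
  simp only [Matrix.mulVec, dotProduct, tw, Matrix.of_apply]
  refine Finset.sum_congr rfl fun t _ => ?_
  rw [mul_pow, ← map_pow, ← pow_mul, ← pow_add]
  congr 2
  apply frob_congr p h hq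
  rw [hj]
  rfl

include hq in
/-- The chart ring consists of invariants. -/
lemma ch_fixed [NeZero h] [CharP (FractionRing (MvPolynomial (Fin n × L) k)) p]
    (c : ZMod h → Fin n → L × ℕ) (d : L → ℕ)
    (hv : Valid a c d) (hc : ∀ j, (Dl p (vg k L n) c j).det ≠ 0) (u : GL (Fin n) F)
    (z : FractionRing (MvPolynomial (Fin n × L) k)) (hz : z ∈ ch k p (vg k L n) a c d) :
    sigT p a u z = z := by
  unfold ch at hz
  induction hz using Algebra.adjoin_induction with
  | mem z hz =>
    obtain ⟨⟨s, l⟩, rfl⟩ := hz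
    obtain ⟨x, hx⟩ : ∃ x : L × ℕ, x = (l, d l) := ⟨_, rfl⟩
    change sigT p a u (co p (vg k L n) c (dg h a (l, d l)) (mon p (vg k L n) (l, d l)) s) =
      co p (vg k L n) c (dg h a (l, d l)) (mon p (vg k L n) (l, d l)) s
    rw [← hx]
    have h1 : co p (vg k L n) c (dg h a x) (mon p (vg k L n) x) =
        fun t => sigT p a u (co p (vg k L n) c (dg h a x) (mon p (vg k L n) x) t) := by
      apply co_unique p (vg k L n) c (hc _)
      intro i
      have h2 : mon p (vg k L n) x = fun i => ∑ t, sigT p a u
          (co p (vg k L n) c (dg h a x) (mon p (vg k L n) x) t) *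
            mon p (vg k L n) (c (dg h a x) t) i := by
        apply tw_injective (F := F) p (dg h a x).val u
        funext i
        rw [← sigT_mon p a hq u x _ (ZMod.natCast_zmod_val _) i]
        conv_lhs => rw [eq_sum_co p (vg k L n) c (hc (dg h a x)) (mon p (vg k L n) x) i]
        rw [map_sum]
        simp only [Matrix.mulVec, dotProduct]
        simp_rw [Finset.mul_sum]
        rw [Finset.sum_comm]
        refine Finset.sum_congr rfl fun t _ => ?_
        rw [map_mul, sigT_mon p a hq u (c (dg h a x) t) (dg h a x).val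
          (by rw [ZMod.natCast_zmod_val, (hv.1 _ t).2])]
        simp only [Matrix.mulVec, dotProduct]
        rw [Finset.mul_sum]
        refine Finset.sum_congr rfl fun t' _ => by ring
      exact congrFun h2 i
    exact (congrFun h1 s).symm
  | algebraMap r => exact (sigT p a u).commutes r
  | add x y _ _ hx hy => rw [map_add, hx, hy]
  | mul x y _ _ hx hy => rw [map_mul, hx, hy]

end Fixed

end Pool.Agent.H15Twist
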