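import Mathlib

/-! # Invariants of `GL_n(F)` on sums of Frobenius twists of the standard representation -/

set_option autoImplicit false

namespace Pool.Agent.H15Twist

/-- The action of an `n × n`-matrix `u` over the finite field `F` of characteristic `p` on the
polynomial ring over `k ⊇ F` in the entries `X (i, l)` of a generic matrix with `n` rows and
columns indexed by `L`: the column `l` is multiplied from the left by the `a l`-th Frobenius twist
of `u`, i.e. `X (i, l) ↦ ∑ j, (u i j) ^ (p ^ a l) * X (j, l)`. -/
noncomputable def twAct (k : Type) [Field k] {F : Type} [Field F] [Algebra F k] {n : ℕ}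
    {L : Type} (p : ℕ) (a : L → ℕ) (u : Matrix (Fin n) (Fin n) F) :
    MvPolynomial (Fin n × L) k →ₐ[k] MvPolynomial (Fin n × L) k :=
  MvPolynomial.aeval fun z => ∑ j : Fin n,
    MvPolynomial.C (algebraMap F k (u z.1 j ^ (p ^ a z.2))) * MvPolynomial.X (j, z.2)

/-- The ring of invariants of `GL_n(F)` on the polynomial functions over `k` on the sum over `l`
of the `a l`-th Frobenius twists of the standard representation. -/
noncomputable def twInv (k : Type) [Field k] (F : Type) [Field F] [Algebra F k] (n : ℕ)
    {L : Type} (p : ℕ) (a : L → ℕ) : Subalgebra k (MvPolynomial (Fin n × L) k) where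
  carrier := {g | ∀ u : GL (Fin n) F, twAct k p a (u : Matrix (Fin n) (Fin n) F) g = g}
  mul_mem' := fun {x y} hx hy u => by rw [map_mul, hx u, hy u]
  add_mem' := fun {x y} hx hy u => by rw [map_add, hx u, hy u]
  algebraMap_mem' := fun r u => by rw [AlgHom.commutes]

end Pool.Agent.H15Twist
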