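import Pool.Agent.Lib.Flag_H15.FlagMain

/-! # Frobenius lattices over valuation rings are free -/

set_option autoImplicit false

open Pool.Agent.H15Model Pool.Agent.H15Flag

namespace Pool.Agent.H15Twist

section Span

variable {k K : Type} [Field k] [Field K] [Algebra k K] {L : Type} [DecidableEq L]
variable (p h : ℕ) [hp : Fact p.Prime] [CharP K p] (M : ℕ → L → K) (s : ℕ → L)

lemma lam_span' (n : ℕ) (hx : ∀ i < n, xx (p ^ h) M s i ≠ 0) {R : Type} [CommRing R] [Algebra R K]
    (E : Subalgebra k K) (hE : ∀ z, z ∈ E → ∃ r : R, algebraMap R K r = z)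
    (hph : ∀ i < n, ∀ l, ph (p ^ h) M s i l ∈ E)
    (hxx : ∀ i < n, xx (p ^ h) M s i ^ (p ^ h - 1) ∈ E) :
    ∀ d ≤ n, ∀ v ∈ Lam (p ^ h) M s E (n - d), (fun i : Fin n => v i) ∈
      Submodule.span R (Set.range fun (t : Fin n) (i : Fin n) => row (p ^ h) M s t i (s t)) := by
  intro d
  induction d with
  | zero =>
    intro _ v hv
    have : (fun i : Fin n => v i) = 0 := by
      funext i
      exact lam_vanish p h M s E hx hv i.2
    rw [this]; exact zero_mem _
  | succ d ih =>
    intro hd v hv
    have h1 : n - (d + 1) + 1 = n - d := by omega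
    have h2 : n - (d + 1) < n := by omega
    obtain ⟨c, hc⟩ := lam_step p h M s E (hx _ h2) (hph _ h2) (hxx _ h2) hv
    rw [h1] at hc
    have h3 := ih (by omega) _ hc
    obtain ⟨r, hr⟩ := hE c c.2
    have h4 : (fun i : Fin n => v i) = (fun i : Fin n => v i - (c : K) *
        row (p ^ h) M s (n - (d + 1)) i (s (n - (d + 1)))) +
        r • fun i : Fin n => row (p ^ h) M s (n - (d + 1)) i (s (n - (d + 1))) := by
      funext i
      simp only [Pi.add_apply, Pi.smul_apply]
      rw [Algebra.smul_def, hr]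
      ring
    rw [h4]
    exact add_mem h3 (Submodule.smul_mem _ _ (Submodule.subset_span ⟨⟨_, h2⟩, rfl⟩))

lemma lam_frob_pow (E : Subalgebra k K) {t : ℕ} {v : ℕ → K} (hv : v ∈ Lam (p ^ h) M s E t)
    (r : ℕ) : (fun i => v i ^ ((p ^ h) ^ r)) ∈ Lam (p ^ h) M s E t := by
  induction r with
  | zero => simpa using hv
  | succ r ih =>
    have h1 := lam_frob p h M s E ih
    have h2 : (fun i => v i ^ ((p ^ h) ^ (r + 1))) = fun i => (v i ^ ((p ^ h) ^ r)) ^ (p ^ h) := by
      funext i
      rw [pow_succ (p ^ h) r, pow_mul]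
    rw [h2]; exact h1

lemma lam_anti (E : Subalgebra k K) {t : ℕ} (hph : ∀ l, ph (p ^ h) M s t l ∈ E)
    (hxx : xx (p ^ h) M s t ^ (p ^ h - 1) ∈ E) {v : ℕ → K}
    (hv : v ∈ Lam (p ^ h) M s E (t + 1)) : v ∈ Lam (p ^ h) M s E t := by
  induction hv using Submodule.span_induction with
  | mem v hv =>
    obtain ⟨r, l, rfl⟩ := hv
    apply lam_frob_pow p h M s E
    have hst := lam_col M s (p ^ h) E t (s t)
    by_cases hl : l = s t
    · have h1 : (fun i => row (p ^ h) M s (t + 1) i l) =
          (fun i => row (p ^ h) M s t i (s t) ^ (p ^ h)) -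
            (⟨_, hxx⟩ : E) • fun i => row (p ^ h) M s t i (s t) := by
        funext i
        rw [row_succ]
        simp only [red, if_pos hl, Pi.sub_apply, Pi.smul_apply]
        rfl
      rw [h1]
      exact sub_mem (lam_frob p h M s E hst) (Submodule.smul_mem _ _ hst)
    · have h1 : (fun i => row (p ^ h) M s (t + 1) i l) =
          (fun i => row (p ^ h) M s t i l) -
            (⟨_, hph l⟩ : E) • fun i => row (p ^ h) M s t i (s t) := by
        funext i
        rw [row_succ]
        simp only [red, if_neg hl, Pi.sub_apply, Pi.smul_apply]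
        rfl
      rw [h1]
      exact sub_mem (lam_col M s (p ^ h) E t l) (Submodule.smul_mem _ _ hst)
  | zero => exact zero_mem _
  | add x y _ _ hx hy => exact add_mem hx hy
  | smul c v _ hv => exact Submodule.smul_mem _ c hv

lemma lam_le_zero (E : Subalgebra k K) {n : ℕ} (hph : ∀ t < n, ∀ l, ph (p ^ h) M s t l ∈ E)
    (hxx : ∀ t < n, xx (p ^ h) M s t ^ (p ^ h - 1) ∈ E) {t : ℕ} (ht : t ≤ n) {v : ℕ → K}
    (hv : v ∈ Lam (p ^ h) M s E t) : v ∈ Lam (p ^ h) M s E 0 := by
  induction t with
  | zero => exact hv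
  | succ t ih =>
    exact ih (by omega) (lam_anti p h M s E (hph t (by omega)) (hxx t (by omega)) hv)

/-- The lattice over a valuation ring generated by the Frobenius twists of the columns of a matrix
is free with a basis of the ambient space. -/
lemma lattice_basis [Finite L] [Nonempty L] (n : ℕ) (V : ValuationSubring K)
    (hk : ∀ a : k, algebraMap k K a ∈ V) (hM : ∀ i l, M i l ∈ V)
    (hx : ∀ s : ℕ → L, ∀ i < n, xx (p ^ h) M s i ≠ 0) :
    ∃ b : Fin n → Fin n → K, LinearIndependent K b ∧ Submodule.span V (Set.range b) =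
      Submodule.span V {w | ∃ (l : L) (r : ℕ), w = fun i : Fin n => M i l ^ ((p ^ h) ^ r)} := by
  obtain ⟨s, hs⟩ := exists_chart_of_valuation (k := k) p h M (fun _ => 1) n V hk hM hx
  let E : Subalgebra k K :=
    { carrier := V
      mul_mem' := fun {a b} ha hb => mul_mem ha hb
      add_mem' := fun {a b} ha hb => add_mem ha hb
      algebraMap_mem' := hk }
  have hph : ∀ t < n, ∀ l, ph (p ^ h) M s t l ∈ E := fun t ht l =>
    hs _ (ph_mem p h M s _ ht l)
  have hxx : ∀ t < n, xx (p ^ h) M s t ^ (p ^ h - 1) ∈ E := by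
    intro t ht
    have h1 : xx (p ^ h) M s t ∈ V := by
      have := hs _ (xx_pow_mem p h M s (fun _ => 1) ht (one_dvd _) (n := 1))
      simpa using this
    exact pow_mem h1 _
  refine ⟨fun (t : Fin n) (i : Fin n) => row (p ^ h) M s t i (s t), piv_indep p h M s n (hx s), ?_⟩
  apply le_antisymm
  · rw [Submodule.span_le]
    rintro _ ⟨t, rfl⟩
    have h1 := lam_le_zero p h M s E hph hxx t.2.le (lam_col M s (p ^ h) E t (s t))
    -- restriction of the elements of `Lam`
    have h2 : ∀ v ∈ Lam (p ^ h) M s E 0, (fun i : Fin n => v i) ∈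
        Submodule.span V {w | ∃ (l : L) (r : ℕ), w = fun i : Fin n => M i l ^ ((p ^ h) ^ r)} := by
      intro v hv
      induction hv using Submodule.span_induction with
      | mem v hv =>
        obtain ⟨r, l, rfl⟩ := hv
        exact Submodule.subset_span ⟨l, r, rfl⟩
      | zero => exact zero_mem _
      | add x y _ _ hx hy => exact add_mem hx hy
      | smul c v _ hv => exact Submodule.smul_mem _ (⟨c.1, c.2⟩ : V) hv
    exact h2 _ h1
  · rw [Submodule.span_le]
    rintro _ ⟨l, r, rfl⟩
    have h1 := lam_span' (k := k) p h M s n (hx s) (R := V) E (fun z hz => ⟨⟨z, hz⟩, rfl⟩)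
      hph hxx n le_rfl (fun i => M i l ^ ((p ^ h) ^ r))
    apply h1
    have h2 : n - n = 0 := by omega
    rw [h2]
    exact Submodule.subset_span ⟨r, l, rfl⟩

end Span

end Pool.Agent.H15Twist
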