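import Pool.Agent.Lib.Twist_H15.ActT
import Pool.Agent.Lib.Twist_H15.Lattice
import Pool.Agent.Lib.Twist_H15.Greedy

/-! # Algebraic independence of the coordinates -/

set_option autoImplicit false

open Polynomial Pool.Agent.H15Flag

namespace Pool.Agent.H15Twist

section General

variable {k K : Type} [Field k] [Field K] [Algebra k K]

lemma isIntegral_of_val (D : Subalgebra k K) {w : K}
    (hval : ∀ V : ValuationSubring K, (∀ c ∈ D, c ∈ V) → w ∈ V) : IsIntegral D w := by
  have hcl : Subring.closure (D : Set K) ≤ D.toSubring := Subring.closure_le.mpr fun x hx => hx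
  have hint0 : IsIntegral (Subring.closure (D : Set K)) w := by
    have h1 : w ∈ (integralClosure (Subring.closure (D : Set K)) K).toSubring := by
      rw [← iInf_valuationSubring_superset, Subring.mem_iInf]
      rintro ⟨V, hV⟩
      exact hval V hV
    exact h1
  obtain ⟨P, hP, hP0⟩ := hint0
  refine ⟨P.map (Subring.inclusion hcl), hP.map _, ?_⟩
  rw [eval₂_map]
  exact hP0

variable {L : Type} [DecidableEq L]
variable (p h : ℕ) [hp : Fact p.Prime] (M : ℕ → L → K) (s : ℕ → L) (e : ℕ → ℕ)

/-- the entries are algebraic over the coordinates after `t` stages -/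
lemma M_isAlgebraic_gfam (hh : 1 ≤ h) {n t : ℕ} (ht : t ≤ n)
    (hx : ∀ i < t, xx (p ^ h) M s i ≠ 0) (he : ∀ i < n, 1 ≤ e i) :
    ∀ i < n, ∀ l, IsAlgebraic (Algebra.adjoin k (Set.range (gfam (p ^ h) M s e n t))) (M i l) := by
  set q := p ^ h with hqdef
  have hq2 : 2 ≤ q := by
    rw [hqdef]
    calc 2 ≤ p := hp.out.two_le
      _ = p ^ 1 := (pow_one p).symm
      _ ≤ p ^ h := Nat.pow_le_pow_right hp.out.pos hh
  set D := Algebra.adjoin k (Set.range (gfam q M s e n t)) with hD
  have hmem : ∀ z, gfam q M s e n t z ∈ D := fun z => Algebra.subset_adjoin ⟨z, rfl⟩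
  have halg : ∀ z ∈ D, IsAlgebraic D z := fun z hz => isAlgebraic_algebraMap (⟨z, hz⟩ : D)
  have hphs : ∀ i < t, ph q M s i (s i) = 1 := fun i hi => div_self (hx i hi)
  have hxxA : ∀ i < t, IsAlgebraic D (xx q M s i) := by
    intro i hi
    have h1 := halg _ (hmem (⟨i, by omega⟩, s i))
    simp only [gfam, if_pos hi, if_true] at h1
    exact h1.of_pow (he i (by omega))
  have hphA : ∀ i < t, ∀ l, IsAlgebraic D (ph q M s i l) := by
    intro i hi l
    by_cases hl : l = s i
    · rw [hl, hphs i hi]
      exact halg 1 (one_mem D)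
    · have h1 := halg _ (hmem (⟨i, by omega⟩, l))
      simpa only [gfam, if_pos hi, if_neg hl] using h1
  have hdesc : ∀ i, ∀ t' ≤ t, (∀ l, IsAlgebraic D (row q M s t' i l)) →
      ∀ l, IsAlgebraic D (M i l) := by
    intro i t'
    induction t' with
    | zero => intro _ h0; exact h0
    | succ t' ih =>
      intro ht' h0
      apply ih (by omega)
      have hpiv : IsAlgebraic D (row q M s t' i (s t')) := by
        have h1 := h0 (s t')
        apply isAlgebraic_of_eq D hq2 ((hxxA t' (by omega)).pow (q - 1)) h1
        rw [row_succ]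
        simp only [red, if_true]
      intro l
      by_cases hl : l = s t'
      · rw [hl]; exact hpiv
      · have h1 := h0 l
        rw [row_succ] at h1
        simp only [red, if_neg hl] at h1
        have h2 := h1.add ((hphA t' (by omega) l).mul hpiv)
        simpa using h2
  intro i hi
  by_cases hit : i < t
  · apply hdesc i i (by omega)
    intro l
    rw [row_eq_ph_mul M s q (hx i hit)]
    exact (hphA i hit l).mul (hxxA i hit)
  · apply hdesc i t le_rfl
    intro l
    have h1 := halg _ (hmem (⟨i, hi⟩, l))
    simpa only [gfam, if_neg hit] using h1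

end General

section Generic

variable {k : Type} [Field k] {L : Type} [Finite L] {n : ℕ}

omit [Finite L] in
lemma isAlgebraic_of_vg (D : Subalgebra k (FractionRing (MvPolynomial (Fin n × L) k)))
    (hD : ∀ l i, IsAlgebraic D (vg k L n l i)) :
    Algebra.IsAlgebraic D (FractionRing (MvPolynomial (Fin n × L) k)) := by
  have htop : (Subalgebra.algebraicClosure D
      (FractionRing (MvPolynomial (Fin n × L) k))).restrictScalars k = ⊤ := by
    apply Mg_gen
    · intro z hz
      have : IsAlgebraic D z := hz
      exact this.inv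
    · intro i hi l
      have := hD l ⟨i, hi⟩
      rw [vg_eq] at this
      exact this
  refine ⟨fun z => ?_⟩
  have : z ∈ (Subalgebra.algebraicClosure D
      (FractionRing (MvPolynomial (Fin n × L) k))).restrictScalars k := by rw [htop]; trivial
  exact this

lemma algInd_of_isAlgebraic (x : Fin n × L → FractionRing (MvPolynomial (Fin n × L) k))
    (hx : ∀ l i, IsAlgebraic (Algebra.adjoin k (Set.range x)) (vg k L n l i)) :
    AlgebraicIndependent k x := by
  have halg := isAlgebraic_of_vg (Algebra.adjoin k (Set.range x)) hx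
  have hind : AlgebraicIndependent k (fun z : Fin n × L =>
      algebraMap (MvPolynomial (Fin n × L) k) (FractionRing (MvPolynomial (Fin n × L) k))
        (MvPolynomial.X z)) := by
    have h1 := (MvPolynomial.algebraicIndependent_X (Fin n × L) k)
    exact h1.map' (f := IsScalarTower.toAlgHom k (MvPolynomial (Fin n × L) k)
      (FractionRing (MvPolynomial (Fin n × L) k))) (IsFractionRing.injective _ _)
  exact (Algebra.IsAlgebraic.isTranscendenceBasis_of_le_trdeg_of_finite k
    x hind.cardinalMk_le_trdeg).1

variable [DecidableEq L] (p h : ℕ) [hp : Fact p.Prime]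

/-- The pivots do not vanish for the matrices whose columns are Frobenius powers of the columns of
the generic matrix. -/
lemma xx_ne_zero' (hh : 1 ≤ h) (m : L → ℕ) (s : ℕ → L) :
    ∀ i < n, xx (p ^ h) (fun i l => Mg k L n i l ^ (p ^ m l)) s i ≠ 0 := by
  intro i
  induction i using Nat.strong_induction_on with
  | _ i ih =>
    intro hi
    have h1 := M_isAlgebraic_gfam (k := k) p h (fun i l => Mg k L n i l ^ (p ^ m l)) s
      (fun _ => 1) hh hi.le (fun j hj => ih j hj (by omega)) (fun _ _ => le_rfl)
    have h2 : AlgebraicIndependent k (gfam (p ^ h) (fun i l => Mg k L n i l ^ (p ^ m l)) s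
        (fun _ => 1) n i) := by
      apply algInd_of_isAlgebraic
      intro l i'
      have h3 := h1 i' i'.2 l
      rw [vg_eq]
      exact h3.of_pow (pow_pos hp.out.pos _)
    have h4 := h2.ne_zero (⟨i, hi⟩, s i)
    simp only [gfam, lt_irrefl, if_false] at h4
    exact h4

end Generic

section Chart

variable {k : Type} [Field k] {L : Type} [Finite L] {n h : ℕ} [NeZero h]
variable (p : ℕ) (a : L → ℕ) [hp : Fact p.Prime]
  [CharP (FractionRing (MvPolynomial (Fin n × L) k)) p]
  (c : ZMod h → Fin n → L × ℕ) (d : L → ℕ)
  (hv : Valid a c d) (hc : ∀ j, (Dl p (vg k L n) c j).det ≠ 0)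

include hv hc in
lemma algInd_ch : AlgebraicIndependent k (fun z : Fin n × L =>
    co p (vg k L n) c (dg h a (z.2, d z.2)) (mon p (vg k L n) (z.2, d z.2)) z.1) := by
  apply algInd_of_isAlgebraic
  intro l i
  have h1 : IsIntegral (ch k p (vg k L n) a c d) (vg k L n l i) :=
    isIntegral_of_val _ fun V hV => mem_of_ch p (vg k L n) c a d hv hc V hV l i
  exact h1.isAlgebraic

include hv hc in
lemma smooth_ch : Algebra.Smooth k (ch k p (vg k L n) a c d) := by
  have h1 := algInd_ch p a c d hv hc
  have h2 : Algebra.FinitePresentation k (MvPolynomial (Fin n × L) k) := inferInstance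
  have h3 : Algebra.FormallySmooth k (MvPolynomial (Fin n × L) k) := inferInstance
  have h4 : Algebra.Smooth k (MvPolynomial (Fin n × L) k) := ⟨inferInstance, inferInstance⟩
  exact Algebra.Smooth.of_equiv h1.aevalEquiv

include hv hc in
lemma isIntegrallyClosed_ch : IsIntegrallyClosed (ch k p (vg k L n) a c d) := by
  have h1 := algInd_ch p a c d hv hc
  exact IsIntegrallyClosed.of_equiv h1.aevalEquiv.toRingEquiv

end Chart

end Pool.Agent.H15Twist
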