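import Pool.Agent.Lib.Twist_H15.Indep

/-! # Resolution of the quotients by `GL_n(F)` -/

set_option autoImplicit false

open AlgebraicGeometry CategoryTheory Pool.Agent.H15Model Pool.Agent.H15Flag

namespace Pool.Agent.H15Twist

section Inv

variable {k : Type} [Field k] {F : Type} [Field F] [Fintype F] [Algebra F k]
  {L : Type} [Finite L] {n h : ℕ} [NeZero h]
variable (p : ℕ) (a : L → ℕ) [hp : Fact p.Prime] [CharP F p]
  [CharP (FractionRing (MvPolynomial (Fin n × L) k)) p] (hq : Fintype.card F = p ^ h)
  (c : ZMod h → Fin n → L × ℕ) (d : L → ℕ)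
  (hv : Valid a c d) (hc : ∀ j, (Dl p (vg k L n) c j).det ≠ 0)

omit [Finite L] [NeZero h] [CharP F p] in
include hq in
lemma ev_mon_injective (l0 : L) (s : ℕ) :
    Function.Injective (ev (F := F) (mon p (vg k L n) (l0, s))) := by
  have hinj : Function.Injective (ev (F := F) (vg k L n l0)) := by
    have h1 := ev_injective (F := F) (k := k) (n := n) l0
    have h2 : vg k L n l0 = fun i : Fin n => Mg k L n i l0 := by
      funext i; exact vg_eq l0 i
    rw [h2]; exact h1
  have hh : h ≠ 0 := by
    rintro rfl
    rw [pow_zero] at hq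
    have := Fintype.one_lt_card (α := F)
    omega
  -- the root of an element of the finite field
  have hroot : ∀ x : F, (x ^ (p ^ (s * (h - 1)))) ^ (p ^ s) = x := by
    intro x
    rw [← pow_mul, ← pow_add]
    have h3 : s * (h - 1) + s = h * s := by
      obtain ⟨m, rfl⟩ : ∃ m, h = m + 1 := ⟨h - 1, by omega⟩
      simp only [Nat.add_sub_cancel]
      ring
    rw [h3, pow_mul, ← hq, FiniteField.pow_card_pow]
  have hev : ∀ α : Fin n → F, ev (F := F) (mon p (vg k L n) (l0, s)) α =
      ev (F := F) (vg k L n l0) (fun i => α i ^ (p ^ (s * (h - 1)))) ^ (p ^ s) := by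
    intro α
    unfold ev
    rw [sum_pow_char_pow]
    refine Finset.sum_congr rfl fun i _ => ?_
    rw [mul_pow, ← map_pow, hroot]
    rfl
  intro α β hab
  rw [hev, hev] at hab
  have h4 := (iterateFrobenius_inj (FractionRing (MvPolynomial (Fin n × L) k)) p s) hab
  have h5 := hinj h4
  funext i
  have h6 := congrFun h5 i
  rw [← hroot (α i), ← hroot (β i)]
  rw [h6]

include hv hc hq in
lemma twInv_le_ch (l0 : L) (g : MvPolynomial (Fin n × L) k) (hg : g ∈ twInv k F n p a) :
    algebraMap (MvPolynomial (Fin n × L) k) (FractionRing (MvPolynomial (Fin n × L) k)) g ∈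
      ch k p (vg k L n) a c d := by
  have hcl := isIntegrallyClosed_ch p a c d hv hc
  have hh : 1 ≤ h := Nat.one_le_iff_ne_zero.mpr (NeZero.ne h)
  obtain ⟨D, hD⟩ : ∃ D, D = ch k p (vg k L n) a c d := ⟨_, rfl⟩
  rw [← hD]
  rw [← hD] at hcl
  have hcoD : ∀ l r t, co p (vg k L n) c (dg h a (l, r)) (mon p (vg k L n) (l, r)) t ∈ D := by
    intro l r t; rw [hD]; exact co_mon_mem p (vg k L n) c a d hv hc l r t
  obtain ⟨E0, hE0⟩ : ∃ E0 : Subfield (FractionRing (MvPolynomial (Fin n × L) k)),
    E0 = Subfield.closure (D : Set _) := ⟨_, rfl⟩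
  have hDE : ∀ z, z ∈ D → z ∈ E0 := by
    intro z hz; rw [hE0]; exact Subfield.subset_closure hz
  have hk : ∀ a : k, algebraMap k (FractionRing (MvPolynomial (Fin n × L) k)) a ∈ E0 :=
    fun a => hDE _ (D.algebraMap_mem a)
  -- all the monomials are in the span of the chosen ones
  have hspan : ∀ x : L × ℕ, mon p (vg k L n) x ∈ Submodule.span E0
      (Set.range fun t => mon p (vg k L n) (c (dg h a x) t)) := by
    intro x
    rw [Submodule.mem_span_range_iff_exists_fun]
    refine ⟨fun t => ⟨co p (vg k L n) c (dg h a x) (mon p (vg k L n) x) t,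
      hDE _ (hcoD x.1 x.2 t)⟩, ?_⟩
    funext i
    simp only [Finset.sum_apply, Pi.smul_apply]
    exact (eq_sum_co p (vg k L n) c (hc (dg h a x)) (mon p (vg k L n) x) i).symm
  have hbind : ∀ j, LinearIndependent (FractionRing (MvPolynomial (Fin n × L) k))
      (fun t => mon p (vg k L n) (c j t)) := by
    intro j
    have h1 : IsUnit (Dl p (vg k L n) c j) := by
      rw [Matrix.isUnit_iff_isUnit_det, isUnit_iff_ne_zero]; exact hc j
    have h2 := Matrix.linearIndependent_cols_iff_isUnit.mpr h1
    exact h2
  -- the twists of the column `l0`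
  have hmoore : ∀ s : ℕ, LinearIndependent (FractionRing (MvPolynomial (Fin n × L) k))
      (fun (r : Fin n) => mon p (vg k L n) (l0, s + h * r)) := by
    intro s
    have h1 := moore_indep (F := F) p h hq hh (mon p (vg k L n) (l0, s))
      (ev_mon_injective p hq l0 s)
    have h2 : (fun (r : Fin n) (i : Fin n) => mon p (vg k L n) (l0, s) i ^ ((p ^ h) ^ (r : ℕ))) =
        fun (r : Fin n) => mon p (vg k L n) (l0, s + h * r) := by
      funext r i
      unfold mon
      change (vg k L n l0 i ^ p ^ s) ^ (p ^ h) ^ (r : ℕ) = vg k L n l0 i ^ p ^ (s + h * r)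
      rw [← pow_mul, ← pow_mul, ← pow_add]
    rw [← h2]; exact h1
  have hcoef : ∀ (s : ℕ) (x : L × ℕ), dg h a x = dg h a (l0, s) →
      ∃ e : Fin n → E0, ∀ i, mon p (vg k L n) x i =
        ∑ r : Fin n, (e r : FractionRing (MvPolynomial (Fin n × L) k)) *
          mon p (vg k L n) (l0, s + h * r) i := by
    intro s x hx
    refine exists_coeff E0 (fun t => mon p (vg k L n) (c (dg h a x) t)) _ (hbind _) (hmoore s)
      ?_ _ (hspan x)
    intro r
    have h1 : dg h a (l0, s + h * r) = dg h a x := by
      rw [hx]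
      unfold dg
      push_cast
      simp
    have h2 := hspan (l0, s + h * r)
    rw [h1] at h2
    exact h2
  obtain ⟨β, hβ⟩ := hcoef 0 (l0, h * n) (by unfold dg; push_cast; simp)
  have hsl : ∀ l, ∃ s : ℕ, dg h a (l, 0) = dg h a (l0, s) := by
    intro l
    refine ⟨((a l : ZMod h) - (a l0 : ZMod h)).val, ?_⟩
    unfold dg
    push_cast
    rw [ZMod.natCast_zmod_val]
    ring
  choose s hs using hsl
  choose e he using fun l => hcoef (s l) (l, 0) (hs l)
  have hv0 : ∀ l i, vg k L n l i = mon p (vg k L n) (l, 0) i := by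
    intro l i
    unfold mon
    rw [pow_zero, pow_one]
  apply mem_of_frac_of_val D
  · rw [← hE0]
    refine mem_of_fixed_core (F := F) (k := k) p h hq hh (vg k L n l0) ?_ E0 hk ?_ β ?_ _ ?_
    · have h1 := ev_mon_injective (F := F) (k := k) (n := n) (h := h) p hq l0 0
      have h2 : mon p (vg k L n) (l0, 0) = vg k L n l0 := by
        funext i; exact (hv0 l0 i).symm
      rw [h2] at h1
      exact h1
    · intro S hS1 hS2 hS3
      apply Mg_gen k L n S hS1
      intro i hi l
      have h1 := he l ⟨i, hi⟩
      rw [← hv0, vg_eq] at h1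
      change Mg k L n i l = _ at h1
      rw [h1]
      refine sum_mem fun r _ => mul_mem (hS2 _ (e l r).2) ?_
      unfold mon
      exact pow_mem (hS3 _) _
    · intro i
      have h1 := hβ i
      unfold mon at h1
      simp only [zero_add] at h1
      rw [← pow_mul, h1]
      refine Finset.sum_congr rfl fun r _ => ?_
      rw [pow_mul]
    · intro σ u hu
      -- the twisted group element
      have hFfix : ∀ (x : F), σ (algebraMap F _ x) = algebraMap F _ x := by
        intro x
        rw [IsScalarTower.algebraMap_apply F k (FractionRing (MvPolynomial (Fin n × L) k))]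
        exact σ.commutes ⟨_, hk (algebraMap F k x)⟩
      obtain ⟨u', hu'⟩ : ∃ u' : GL (Fin n) F, ∀ i j, u'.1 i j =
          u.1 i j ^ (p ^ (a l0 * (h - 1))) := by
        refine ⟨Matrix.GeneralLinearGroup.map (iterateFrobenius F p (a l0 * (h - 1))) u, ?_⟩
        intro i j
        rfl
      have hσ : ∀ l i, σ (vg k L n l i) = sigT p a u' (vg k L n l i) := by
        intro l i
        rw [sigT_vg, hv0 l i, he l i, map_sum]
        have h15 : ∀ r : Fin n, σ ((e l r : FractionRing (MvPolynomial (Fin n × L) k)) *
            mon p (vg k L n) (l0, s l + h * r) i) =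
            ∑ j : Fin n, algebraMap F _ (u'.1 i j ^ (p ^ a l)) *
              ((e l r : FractionRing (MvPolynomial (Fin n × L) k)) *
                mon p (vg k L n) (l0, s l + h * r) j) := by
          intro r
          have h16 : σ (e l r : FractionRing (MvPolynomial (Fin n × L) k)) = e l r :=
            σ.commutes (e l r)
          rw [map_mul, h16]
          have h17 : σ (mon p (vg k L n) (l0, s l + h * r) i) =
              ∑ j : Fin n, algebraMap F _ (u'.1 i j ^ (p ^ a l)) *
                mon p (vg k L n) (l0, s l + h * r) j := by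
            unfold mon
            rw [map_pow, hu i, sum_pow_char_pow]
            refine Finset.sum_congr rfl fun j _ => ?_
            rw [mul_pow, ← map_pow, hu', ← pow_mul, ← pow_add]
            congr 2
            apply frob_congr p h hq
            have h18 := hs l
            unfold dg at h18
            push_cast at h18 ⊢
            have h19 : ((h - 1 : ℕ) : ZMod h) = -1 := by
              rw [Nat.cast_sub hh]
              simp
            rw [h19]
            simp only [CharP.cast_eq_zero, zero_mul, add_zero] at h18 ⊢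
            rw [h18]
            ring
          rw [h17, Finset.mul_sum]
          refine Finset.sum_congr rfl fun j _ => by ring
        simp_rw [h15]
        rw [Finset.sum_comm]
        refine Finset.sum_congr rfl fun j _ => ?_
        rw [hv0 l j, he l j, Finset.mul_sum]
      -- the two homomorphisms agree
      let S : Subalgebra k (FractionRing (MvPolynomial (Fin n × L) k)) :=
        { carrier := {z | σ z = sigT p a u' z}
          mul_mem' := fun {x y} hx hy => by
            change σ (x * y) = sigT p a u' (x * y)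
            rw [map_mul, map_mul, show σ x = sigT p a u' x from hx,
              show σ y = sigT p a u' y from hy]
          add_mem' := fun {x y} hx hy => by
            change σ (x + y) = sigT p a u' (x + y)
            rw [map_add, map_add, show σ x = sigT p a u' x from hx,
              show σ y = sigT p a u' y from hy]
          algebraMap_mem' := fun r => by
            change σ (algebraMap k _ r) = sigT p a u' (algebraMap k _ r)
            rw [AlgHom.commutes]
            exact σ.commutes ⟨_, hk r⟩ }
      have hS : S = ⊤ := by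
        apply Mg_gen
        · intro z hz
          change σ z⁻¹ = sigT p a u' z⁻¹
          rw [map_inv₀, map_inv₀, show σ z = sigT p a u' z from hz]
        · intro i hi l
          change σ _ = sigT p a u' _
          have := hσ l ⟨i, hi⟩
          rw [vg_eq] at this
          exact this
      have h20 : algebraMap (MvPolynomial (Fin n × L) k)
          (FractionRing (MvPolynomial (Fin n × L) k)) g ∈ S := by rw [hS]; trivial
      have h21 : σ (algebraMap (MvPolynomial (Fin n × L) k)
          (FractionRing (MvPolynomial (Fin n × L) k)) g) = sigT p a u' (algebraMap _ _ g) := h20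
      rw [h21, sigT_algebraMap, hg u']
  · intro V hV
    have hM : ∀ i < n, ∀ l, Mg k L n i l ∈ V := by
      intro i hi l
      have := mem_of_ch (k := k) p (vg k L n) c a d hv hc V (by rw [← hD]; exact hV) l ⟨i, hi⟩
      rw [vg_eq] at this
      exact this
    exact algebraMap_mem_of_Mg V (fun a => hV _ (D.algebraMap_mem a)) hM g

end Inv

/-- Resolution of the quotients of the sums of Frobenius twists of the standard representation of
`GL_n(F)`. -/
theorem resolution_twInv {k : Type} [Field k] {F : Type} [Field F] [Finite F] [Algebra F k]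
    (p : ℕ) [hp : Fact p.Prime] [CharP F p] (n : ℕ) {L : Type} [Finite L] [Nonempty L]
    (a : L → ℕ) :
    Algebra.FiniteType k (twInv k F n p a) ∧
    ∃ (Y : Scheme.{0}) (sY : Y ⟶ Spec (CommRingCat.of k))
      (f : Y ⟶ Spec (CommRingCat.of (twInv k F n p a))),
      AlgebraicGeometry.IsIntegral Y ∧ AlgebraicGeometry.Smooth sY ∧
      f ≫ Spec.map (CommRingCat.ofHom (algebraMap k (twInv k F n p a))) = sY ∧
      AlgebraicGeometry.IsProper f ∧
      ∃ V : (Spec (CommRingCat.of (twInv k F n p a))).Opens, V ≠ ⊥ ∧
        IsIso (AlgebraicGeometry.morphismRestrict f V) := by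
  classical
  have : Fintype F := Fintype.ofFinite F
  have : Fintype L := Fintype.ofFinite L
  obtain ⟨h', -, hq'⟩ := FiniteField.card F p
  obtain ⟨h, hh', hh, hq⟩ : ∃ h : ℕ, h = (h' : ℕ) ∧ 1 ≤ h ∧ Fintype.card F = p ^ h :=
    ⟨h', rfl, h'.2, hq'⟩
  have hNe : NeZero h := ⟨by omega⟩
  have hck : CharP k p := charP_of_injective_algebraMap (algebraMap F k).injective p
  have hch : CharP (FractionRing (MvPolynomial (Fin n × L) k)) p :=
    charP_of_injective_algebraMap (algebraMap k _).injective p
  have l0 : L := Classical.arbitrary L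
  -- the valuation rings
  have hvalc : ∀ V : ValuationSubring (FractionRing (MvPolynomial (Fin n × L) k)),
      (∀ b : MvPolynomial (Fin n × L) k, algebraMap _ _ b ∈ V) →
      ∃ (c : ZMod h → Fin n → L × ℕ) (d : L → ℕ), Valid a c d ∧
        (∀ j, (Dl p (vg k L n) c j).det ≠ 0) ∧ ∀ z ∈ ch k p (vg k L n) a c d, z ∈ V := by
    intro V hV
    have hk : ∀ x : k, algebraMap k (FractionRing (MvPolynomial (Fin n × L) k)) x ∈ V := by
      intro x
      have := hV (algebraMap k _ x)
      rwa [← IsScalarTower.algebraMap_apply] at this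
    refine exists_chart p (vg k L n) a (V := V) hk ?_
    intro j
    obtain ⟨m, hm⟩ : ∃ m : L → ℕ, m = fun l => (j - (a l : ZMod h)).val := ⟨_, rfl⟩
    have hmj : ∀ l, ((a l + m l : ℕ) : ZMod h) = j := by
      intro l
      rw [hm]
      push_cast
      rw [ZMod.natCast_zmod_val]
      ring
    have hmlt : ∀ l, m l < h := by
      intro l
      rw [hm]
      exact ZMod.val_lt _
    have hM : ∀ i l, Mg k L n i l ^ (p ^ m l) ∈ V := by
      intro i l
      apply pow_mem
      by_cases hi : i < n
      · rw [Mg, dif_pos hi]; exact hV _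
      · rw [Mg, dif_neg hi]; exact zero_mem V
    obtain ⟨b, hb, hbV⟩ := lattice_basis p h (fun i l => Mg k L n i l ^ (p ^ m l)) n V hk hM
      (fun s => xx_ne_zero' p h hh m s)
    refine ⟨b, hb, hbV.trans ?_⟩
    unfold Lat
    congr 1
    ext w
    constructor
    · rintro ⟨l, r, rfl⟩
      refine ⟨(l, m l + h * r), ?_, ?_⟩
      · unfold dg
        have := hmj l
        push_cast at this ⊢
        simp only [CharP.cast_eq_zero, zero_mul, add_zero]
        exact this
      · funext i
        unfold mon
        change (Mg k L n i l ^ p ^ m l) ^ (p ^ h) ^ r = vg k L n l i ^ p ^ (m l + h * r)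
        rw [vg_eq, ← pow_mul, ← pow_mul, ← pow_add]
    · rintro ⟨⟨l, r⟩, hx, rfl⟩
      have h1 : ((r : ℕ) : ZMod h) = (m l : ZMod h) := by
        have h2 := hmj l
        unfold dg at hx
        push_cast at h2 hx
        rw [← hx] at h2
        exact (add_left_cancel h2).symm
      have h2 : r % h = m l := by
        rw [ZMod.natCast_eq_natCast_iff'] at h1
        rw [h1, Nat.mod_eq_of_lt (hmlt l)]
      refine ⟨l, r / h, ?_⟩
      funext i
      unfold mon
      change vg k L n l i ^ p ^ r = (Mg k L n i l ^ p ^ m l) ^ (p ^ h) ^ (r / h)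
      rw [vg_eq, ← pow_mul, ← pow_mul, ← pow_add, ← h2, Nat.mod_add_div]
  -- the finite set of charts
  let N : ℕ := h * n + 1
  let ι : Type := {x : (ZMod h → Fin n → L × Fin N) × (L → Fin N) //
    Valid a (fun j t => ((x.1 j t).1, ((x.1 j t).2 : ℕ))) (fun l => (x.2 l : ℕ)) ∧
    ∀ j, (Dl p (vg k L n) (fun j t => ((x.1 j t).1, ((x.1 j t).2 : ℕ))) j).det ≠ 0}
  have hbound : ∀ (c : ZMod h → Fin n → L × ℕ) (d : L → ℕ), Valid a c d → ∀ l, d l < N := by
    intro c d hv l
    -- the monomials `(l, r)`, `r < d l`, are distinct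
    have h1 : ∀ r : Fin (d l), ∃ x : ZMod h × Fin n, c x.1 x.2 = (l, (r : ℕ)) := by
      intro r
      obtain ⟨t, ht⟩ := hv.2 l r r.2
      exact ⟨(_, t), ht⟩
    choose f hf using h1
    have h2 : Function.Injective f := by
      intro r r' hrr
      have h3 := hf r
      rw [hrr, hf r'] at h3
      exact Fin.ext (congrArg Prod.snd h3).symm
    have h4 := Fintype.card_le_of_injective f h2
    rw [Fintype.card_fin, Fintype.card_prod, ZMod.card, Fintype.card_fin] at h4
    exact Nat.lt_succ_of_le h4
  have hmkι : ∀ (c : ZMod h → Fin n → L × ℕ) (d : L → ℕ), Valid a c d →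
      (∀ j, (Dl p (vg k L n) c j).det ≠ 0) → ∃ x : ι,
        (fun j t => ((x.1.1 j t).1, ((x.1.1 j t).2 : ℕ))) = c ∧ (fun l => (x.1.2 l : ℕ)) = d := by
    intro c d hv hc
    have hd := hbound c d hv
    have hc2 : ∀ j t, (c j t).2 < N := fun j t => (hv.1 j t).1.trans (hd _)
    refine ⟨⟨(fun j t => ((c j t).1, ⟨(c j t).2, hc2 j t⟩), fun l => ⟨d l, hd l⟩), ?_⟩, rfl, rfl⟩
    exact ⟨hv, hc⟩
  have hfin : Finite ι := by
    have : Fintype (ZMod h) := ZMod.fintype h
    exact inferInstance
  have hne : Nonempty ι := by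
    obtain ⟨c, d, hv, hc, -⟩ := hvalc ⊤ (fun _ => trivial)
    obtain ⟨x, -, -⟩ := hmkι c d hv hc
    exact ⟨x⟩
  refine resolution_quot (k := k) (B := MvPolynomial (Fin n × L) k) (G := GL (Fin n) F)
    (fun u => twAct k p a (u : Matrix (Fin n) (Fin n) F))
    (fun u v g => twAct_comp_apply p a _ _ g) (fun g => twAct_one p a g) (twInv k F n p a)
    (fun g => Iff.rfl) (K := FractionRing (MvPolynomial (Fin n × L) k))
    (fun u => sigT p a u) (fun u g => sigT_algebraMap p a u g)
    (fun x : ι => ch k p (vg k L n) a (fun j t => ((x.1.1 j t).1, ((x.1.1 j t).2 : ℕ)))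
      (fun l => (x.1.2 l : ℕ))) ?_ ?_ ?_ ?_ ?_
  · intro x g hg
    exact twInv_le_ch p a hq _ _ x.2.1 x.2.2 l0 g hg
  · intro x x'
    exact isAway_ch p (vg k L n) _ a _ x.2.1 x.2.2 _ _ x'.2.1 x'.2.2
  · intro V hV
    obtain ⟨c, d, hv, hc, hz⟩ := hvalc V hV
    obtain ⟨x, hx1, hx2⟩ := hmkι c d hv hc
    refine ⟨x, ?_⟩
    rw [hx1, hx2]
    exact hz
  · intro x
    exact smooth_ch p a _ _ x.2.1 x.2.2
  · intro x z hz u
    exact ch_fixed p a hq _ _ x.2.1 x.2.2 u z hz

end Pool.Agent.H15Twist
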