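import Pool.Agent.Lib.Flag_H15.Wrap

/-! # Resolution of the quotient of an affine variety by a finite group from charts -/

set_option autoImplicit false

open AlgebraicGeometry CategoryTheory Pool.Agent.H15Model Pool.Agent.H15Flag

namespace Pool.Agent.H15Twist

section Abs

variable {k B G : Type} [Field k] [CommRing B] [IsDomain B] [Algebra k B] [Group G] [Finite G]
  (φ : G → (B →ₐ[k] B)) (hφ : ∀ u v g, φ u (φ v g) = φ (v * u) g) (h1 : ∀ g, φ 1 g = g)
  (A : Subalgebra k B) (hA : ∀ g, g ∈ A ↔ ∀ u, φ u g = g)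

omit [IsDomain B] in
include hφ h1 hA in
lemma isIntegral_fix (g : B) : IsIntegral A g := by
  have : Fintype G := Fintype.ofFinite G
  exact isIntegral_of_orbit_aux A φ hφ h1 (fun g hg => (hA g).mpr hg) g

omit [IsDomain B] in
include hφ h1 hA in
lemma finiteType_fix [Algebra.FiniteType k B] : Algebra.FiniteType k A := by
  have h0 : Algebra.IsIntegral A B := ⟨fun g => isIntegral_fix φ hφ h1 A hA g⟩
  have h1 : Algebra.FiniteType k B := inferInstance
  have h2 : Algebra.FiniteType A B := Algebra.FiniteType.of_restrictScalars_finiteType k A _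
  have h3 : Module.Finite A B := Algebra.IsIntegral.finite
  refine ⟨fg_of_fg_of_fg k A B h1.1 h3.1 ?_⟩
  exact Subtype.val_injective

omit [IsDomain B] [Finite G] in
include hφ h1 in
lemma inj_fix (u : G) : Function.Injective (φ u) := by
  apply Function.LeftInverse.injective (g := φ u⁻¹)
  intro g
  rw [hφ, mul_inv_cancel, h1]

variable {K : Type} [Field K] [Algebra B K] [IsFractionRing B K] [Algebra k K]
  [IsScalarTower k B K] (σ : G → (K →ₐ[k] K))
  (hσ : ∀ u g, σ u (algebraMap B K g) = algebraMap B K (φ u g))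

omit [IsScalarTower k B K] in
include hφ h1 hA hσ in
/-- The invariant fractions are fractions of invariants. -/
lemma exists_frac_fix (c : K) (hc : ∀ u, σ u c = c) :
    ∃ a b : A, b ≠ 0 ∧ c * algebraMap B K (b : B) = algebraMap B K (a : B) := by
  classical
  have : Fintype G := Fintype.ofFinite G
  obtain ⟨f, g, hg, rfl⟩ := IsFractionRing.div_surjective (A := B) c
  have hg0 : g ≠ 0 := nonZeroDivisors.ne_zero hg
  obtain ⟨N, hN⟩ : ∃ N, N = ∏ u : G, φ u g := ⟨_, rfl⟩
  have hNinv : ∀ v, φ v N = N := by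
    intro v
    rw [hN, map_prod]
    refine Fintype.prod_equiv (Equiv.mulRight v) _ _ ?_
    intro u
    rw [hφ]
    rfl
  have hN0 : N ≠ 0 := by
    rw [hN, Finset.prod_ne_zero_iff]
    intro u _ h0
    exact hg0 (inj_fix φ hφ h1 u (by rw [h0, map_zero]))
  obtain ⟨N', hN'⟩ : ∃ N', N' = ∏ u ∈ Finset.univ.erase (1 : G), φ u g := ⟨_, rfl⟩
  have hfac : g * N' = N := by
    rw [hN, hN', ← Finset.mul_prod_erase Finset.univ _ (Finset.mem_univ (1 : G)), h1]
  have hinj : Function.Injective (algebraMap B K) := IsFractionRing.injective _ _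
  have hval : algebraMap B K f / algebraMap B K g * algebraMap B K N =
      algebraMap B K (f * N') := by
    have hg1 : algebraMap B K g ≠ 0 := by
      rw [Ne, ← map_zero (algebraMap B K)]
      exact fun h => hg0 (hinj h)
    rw [← hfac, map_mul, map_mul]
    field_simp
  have hmem : f * N' ∈ A := by
    rw [hA]
    intro u
    apply hinj
    rw [← hσ u, ← hval, map_mul, hc u, hσ, hNinv u]
  have hmemN : N ∈ A := (hA N).mpr hNinv
  refine ⟨⟨f * N', hmem⟩, ⟨N, hmemN⟩, ?_, hval⟩
  intro h0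
  exact hN0 (congrArg Subtype.val h0)

include hφ h1 hA hσ in
theorem resolution_quot [Algebra.FiniteType k B] {ι : Type} [Finite ι] [Nonempty ι]
    (D : ι → Subalgebra k K)
    (hAD : ∀ i, ∀ a ∈ A, algebraMap B K a ∈ D i)
    (hglue : ∀ i j, IsAway (D i) (D i ⊔ D j))
    (hval : ∀ V : ValuationSubring K, (∀ b : B, algebraMap B K b ∈ V) → ∃ i, ∀ c ∈ D i, c ∈ V)
    (hsm : ∀ i, Algebra.Smooth k (D i))
    (hfix : ∀ i, ∀ c ∈ D i, ∀ u, σ u c = c) :
    Algebra.FiniteType k A ∧
    ∃ (Y : Scheme.{0}) (sY : Y ⟶ Spec (CommRingCat.of k)) (f : Y ⟶ Spec (CommRingCat.of A)),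
      AlgebraicGeometry.IsIntegral Y ∧ AlgebraicGeometry.Smooth sY ∧
      f ≫ Spec.map (CommRingCat.ofHom (algebraMap k A)) = sY ∧
      AlgebraicGeometry.IsProper f ∧
      ∃ V : (Spec (CommRingCat.of A)).Opens, V ≠ ⊥ ∧
        IsIso (AlgebraicGeometry.morphismRestrict f V) := by
  have hft : Algebra.FiniteType k A := finiteType_fix φ hφ h1 A hA
  refine ⟨hft, ?_⟩
  have hinj : Function.Injective (algebraMap A K) := by
    intro a b hab
    apply Subtype.ext
    exact IsFractionRing.injective B K hab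
  let mk : (E : Subalgebra k K) → (∀ a ∈ A, algebraMap B K a ∈ E) → Subalgebra A K :=
    fun E hE =>
    { carrier := E
      mul_mem' := fun {a b} ha hb => mul_mem ha hb
      add_mem' := fun {a b} ha hb => add_mem ha hb
      algebraMap_mem' := fun r => hE r.1 r.2 }
  have g1 : ∀ i j, IsAway (mk (D i) (hAD i)) (mk (D i) (hAD i) ⊔ mk (D j) (hAD j)) := by
    intro i j
    obtain ⟨u, hu⟩ := hglue i j
    have hE : ∀ a ∈ A, algebraMap B K a ∈ D i ⊔ D j := fun a ha =>
      (le_sup_left : D i ≤ _) (hAD i a ha)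
    have hsup : mk (D i) (hAD i) ⊔ mk (D j) (hAD j) = mk (D i ⊔ D j) hE := by
      apply le_antisymm
      · refine sup_le ?_ ?_
        · intro z hz
          exact (le_sup_left : D i ≤ D i ⊔ D j) hz
        · intro z hz
          exact (le_sup_right : D j ≤ D i ⊔ D j) hz
      · intro z hz
        have hle : D i ⊔ D j ≤
            (mk (D i) (hAD i) ⊔ mk (D j) (hAD j)).restrictScalars k := by
          refine sup_le ?_ ?_
          · intro z hz
            exact (le_sup_left : mk (D i) (hAD i) ≤ mk (D i) (hAD i) ⊔ mk (D j) (hAD j)) hz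
          · intro z hz
            exact (le_sup_right : mk (D j) (hAD j) ≤ mk (D i) (hAD i) ⊔ mk (D j) (hAD j)) hz
        exact hle hz
    refine ⟨u, ?_⟩
    rw [hsup]
    refine ⟨?_, hu.2.1, hu.2.2.1, hu.2.2.2.1, hu.2.2.2.2⟩
    intro z hz
    exact (le_sup_left : D i ≤ D i ⊔ D j) hz
  have g2 : ∀ V : ValuationSubring K,
      (∀ a : A, algebraMap _ _ a ∈ V) → ∃ i, ∀ c ∈ mk (D i) (hAD i), c ∈ V := by
    intro V hV
    have hV2 : ∀ b : B, algebraMap B K b ∈ V := by
      intro b
      have h8 : IsIntegral A (algebraMap B K b) :=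
        (isIntegral_fix φ hφ h1 A hA b).map (IsScalarTower.toAlgHom A B K)
      exact mem_of_isIntegral_of_le V hV h8
    obtain ⟨i, hi⟩ := hval V hV2
    exact ⟨i, hi⟩
  have g3 : ∀ i, Algebra.Smooth k (mk (D i) (hAD i)) := fun i => hsm i
  have g4 : ∀ i, ∀ c ∈ mk (D i) (hAD i), ∃ a b : A, b ≠ 0 ∧
      c * algebraMap _ _ b = algebraMap _ _ a := by
    intro i c hc
    obtain ⟨a, b, hb, hab⟩ := exists_frac_fix φ hφ h1 A hA σ hσ c (hfix i c hc)
    exact ⟨a, b, hb, hab⟩
  obtain ⟨Y, π, h1, h2, h3, U, hU, h4⟩ := resolution_of_model (k := k) (A := A)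
    (K := K) hinj (fun i => mk (D i) (hAD i)) g1 g2 g3 g4
  refine ⟨Y, π ≫ Spec.map (CommRingCat.ofHom (algebraMap k A)), π, h1, h3, rfl, h2, U, ?_, h4⟩
  rintro rfl
  have h5 : ((⊥ : (Spec (CommRingCat.of A)).Opens) : Set (Spec (CommRingCat.of A))) = ∅ := rfl
  rw [h5] at hU
  have h6 : Nonempty (Spec (CommRingCat.of A)) := ⟨(⊥ : PrimeSpectrum A)⟩
  exact Set.not_nonempty_empty hU.nonempty

end Abs

end Pool.Agent.H15Twist
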